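import Pool.Agent.N805.JG.Stm

/-! # Project JG: basic facts on gaps (periodicity, monotonicity, the law `Q`) -/

set_option autoImplicit false

open MeasureTheory Filter Topology

namespace Pool.Agent.N424.JG

open Pool.Agent.N805.JG

lemma pt_pos {M : ℕ} (hM : 0 < M) (θ : Fin M → ℝ) (n : ℕ) :
    pt θ n = M * (θ (Tuple.sort θ ⟨n % M, Nat.mod_lt n hM⟩) + (n / M : ℕ)) := by
  unfold pt
  rw [dif_pos hM]

lemma pt_add {M : ℕ} (hM : 0 < M) (θ : Fin M → ℝ) (n : ℕ) : pt θ (n + M) = pt θ n + M := by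
  rw [pt_pos hM, pt_pos hM]
  have h1 : (n + M) % M = n % M := Nat.add_mod_right n M
  have h2 : (n + M) / M = n / M + 1 := Nat.add_div_right n hM
  have h3 : (⟨(n + M) % M, Nat.mod_lt _ hM⟩ : Fin M) = ⟨n % M, Nat.mod_lt _ hM⟩ := by
    apply Fin.ext; exact h1
  rw [h3, h2]
  push_cast
  ring

lemma gap_add {M : ℕ} (θ : Fin M → ℝ) (n : ℕ) : gap θ (n + M) = gap θ n := by
  rcases Nat.eq_zero_or_pos M with h | h
  · subst h; rfl
  · unfold gap
    rw [show n + M + 1 = (n + 1) + M by ring, pt_add h, pt_add h]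
    ring

lemma sum_shift_one {E : Type*} [AddCommMonoid E] (M : ℕ) (g : ℕ → E) (hg : ∀ n, g (n + M) = g n) :
    ∑ a ∈ Finset.range M, g (a + 1) = ∑ a ∈ Finset.range M, g a := by
  have h1 := Finset.sum_range_succ g M
  have h2 := Finset.sum_range_succ' g M
  rw [h1] at h2
  have h3 : g M = g 0 := by simpa using hg 0
  rcases Nat.eq_zero_or_pos M with h | h
  · subst h; simp
  · obtain ⟨m, rfl⟩ : ∃ m, M = m + 1 := ⟨M - 1, by omega⟩
    rw [Finset.sum_range_succ (fun a => g (a + 1)), Finset.sum_range_succ' g, h3]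

lemma sum_shift {E : Type*} [AddCommMonoid E] (M : ℕ) (g : ℕ → E) (hg : ∀ n, g (n + M) = g n) (i : ℕ) :
    ∑ a ∈ Finset.range M, g (a + i) = ∑ a ∈ Finset.range M, g a := by
  induction i with
  | zero => simp
  | succ i ih =>
    rw [← ih]
    have := sum_shift_one M (fun n => g (n + i)) (fun n => by
      show g (n + M + i) = g (n + i)
      rw [show n + M + i = (n + i) + M by ring, hg])
    rw [← this]
    refine Finset.sum_congr rfl fun a _ => ?_
    show g (a + (i + 1)) = g (a + 1 + i)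
    rw [show a + (i + 1) = a + 1 + i by ring]

/-- almost every configuration lies in the cube -/
lemma ae_mem (M : ℕ) : ∀ᵐ θ ∂(cue M), ∀ i, θ i ∈ Set.Ico (0 : ℝ) 1 := by
  unfold cue
  apply (withDensity_absolutelyContinuous _ _).ae_le
  have h : MeasurableSet (Set.univ.pi fun _ : Fin M => Set.Ico (0 : ℝ) 1) :=
    MeasurableSet.univ_pi fun _ => measurableSet_Ico
  filter_upwards [ae_restrict_mem h] with θ hθ i
  exact hθ i (Set.mem_univ i)

lemma pt_mono {M : ℕ} (θ : Fin M → ℝ) (hθ : ∀ i, θ i ∈ Set.Ico (0 : ℝ) 1) (n : ℕ) :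
    pt θ n ≤ pt θ (n + 1) := by
  rcases Nat.eq_zero_or_pos M with h | h
  · subst h; simp [pt]
  · rw [pt_pos h, pt_pos h]
    have hM : (0 : ℝ) ≤ M := by positivity
    apply mul_le_mul_of_nonneg_left _ hM
    have hd := Nat.div_add_mod n M
    have hlt := Nat.mod_lt n h
    by_cases hc : n % M + 1 < M
    · have e1 : (n + 1) % M = n % M + 1 := by
        rw [Nat.add_mod, Nat.mod_eq_of_lt (a := 1) (by omega)]
        exact Nat.mod_eq_of_lt hc
      have e2 : (n + 1) / M = n / M := by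
        have := Nat.div_add_mod (n + 1) M
        rw [e1] at this
        have h3 : M * ((n + 1) / M) = M * (n / M) := by omega
        exact Nat.eq_of_mul_eq_mul_left h h3
      have e3 : (⟨(n + 1) % M, Nat.mod_lt _ h⟩ : Fin M) = ⟨n % M + 1, hc⟩ := Fin.ext e1
      rw [e3, e2]
      have hm := Tuple.monotone_sort θ
      have : θ (Tuple.sort θ ⟨n % M, Nat.mod_lt n h⟩) ≤ θ (Tuple.sort θ ⟨n % M + 1, hc⟩) :=
        hm (by simp [Fin.le_def])
      linarith
    · have e1 : n % M + 1 = M := by omega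
      have e2 : (n + 1) / M = n / M + 1 := by
        have : n + 1 = M * (n / M + 1) := by
          rw [Nat.mul_add]; omega
        rw [this, Nat.mul_div_cancel_left _ h]
      rw [e2]
      have := (hθ (Tuple.sort θ ⟨n % M, Nat.mod_lt n h⟩)).2
      have := (hθ (Tuple.sort θ ⟨(n + 1) % M, Nat.mod_lt _ h⟩)).1
      push_cast
      linarith

lemma gap_nonneg {M : ℕ} (θ : Fin M → ℝ) (hθ : ∀ i, θ i ∈ Set.Ico (0 : ℝ) 1) (n : ℕ) :
    0 ≤ gap θ n := by
  unfold gap
  linarith [pt_mono θ hθ n]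

lemma gap_le {M : ℕ} (θ : Fin M → ℝ) (hθ : ∀ i, θ i ∈ Set.Ico (0 : ℝ) 1) (n : ℕ) :
    gap θ n ≤ 2 * M := by
  unfold gap
  rcases Nat.eq_zero_or_pos M with h | h
  · subst h; simp [pt]
  · rw [pt_pos h, pt_pos h]
    have hM : (0 : ℝ) ≤ M := by positivity
    have h1 := (hθ (Tuple.sort θ ⟨n % M, Nat.mod_lt n h⟩)).1
    have h2 := (hθ (Tuple.sort θ ⟨(n + 1) % M, Nat.mod_lt _ h⟩)).2
    have h3 : (((n + 1) / M : ℕ) : ℝ) ≤ ((n / M : ℕ) : ℝ) + 1 := by
      have : (n + 1) / M ≤ n / M + 1 := by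
        calc (n + 1) / M ≤ (n + M) / M := Nat.div_le_div_right (by omega)
          _ = n / M + 1 := Nat.add_div_right n h
      exact_mod_cast this
    rw [← mul_sub]
    calc (M : ℝ) * _ ≤ M * 2 := mul_le_mul_of_nonneg_left (by linarith) hM
      _ = 2 * M := by ring

lemma meas_gap (hM : S_MEAS) (M n : ℕ) : Measurable fun θ : Fin M → ℝ => gap θ n := by
  unfold gap
  exact (hM M (n + 1)).sub (hM M n)

lemma meas_map (hM : S_MEAS) (M a : ℕ) : Measurable fun (θ : Fin M → ℝ) (i : ℕ) => gap θ (a + i) :=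
  measurable_pi_iff.2 fun i => meas_gap hM M (a + i)

lemma prob_Q (hM : S_MEAS) (hP : ∀ M, IsProbabilityMeasure (cue M)) (M : ℕ) (h : 0 < M) :
    IsProbabilityMeasure (Q M) := by
  constructor
  unfold Q
  haveI := hP M
  simp only [Measure.smul_apply, Measure.coe_finsetSum, Finset.sum_apply, smul_eq_mul]
  have h1 : ∀ a ∈ Finset.range M, ((cue M).map (fun θ i => gap θ (a + i))) Set.univ = 1 := by
    intro a _
    haveI := Measure.isProbabilityMeasure_map (μ := cue M) (meas_map hM M a).aemeasurable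
    exact measure_univ
  rw [Finset.sum_congr rfl h1]
  simp only [Finset.sum_const, Finset.card_range, nsmul_eq_mul, mul_one]
  exact ENNReal.inv_mul_cancel (by exact_mod_cast h.ne') (ENNReal.natCast_ne_top M)

/-- the real measure of a set under `Q` -/
lemma real_Q (hM : S_MEAS) (hP : ∀ M, IsProbabilityMeasure (cue M)) (M : ℕ)
    (A : Set (ℕ → ℝ)) (hA : MeasurableSet A) :
    (Q M).real A = (M : ℝ)⁻¹ * ∑ a ∈ Finset.range M, (cue M).real {θ | (fun i => gap θ (a + i)) ∈ A} := by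
  haveI := hP M
  unfold Q
  rw [measureReal_ennreal_smul_apply]
  congr 1
  · simp
  · rw [measureReal_def, Measure.coe_finsetSum, Finset.sum_apply, ENNReal.toReal_sum]
    · refine Finset.sum_congr rfl fun a _ => ?_
      rw [Measure.map_apply (meas_map hM M a) hA]
      rfl
    · intro a _
      rw [Measure.map_apply (meas_map hM M a) hA]
      exact measure_ne_top _ _

lemma ae_Q (hM : S_MEAS) (M : ℕ) (p : (ℕ → ℝ) → Prop) (hm : MeasurableSet {x | p x})
    (hp : ∀ θ : Fin M → ℝ, (∀ i, θ i ∈ Set.Ico (0 : ℝ) 1) → ∀ a, p (fun i => gap θ (a + i))) :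
    ∀ᵐ x ∂(Q M), p x := by
  unfold Q
  apply Measure.ae_smul_measure
  rw [ae_finsetSum_measure_iff]
  intro a _
  rw [ae_map_iff (meas_map hM M a).aemeasurable hm]
  filter_upwards [ae_mem M] with θ hθ
  exact hp θ hθ a

lemma integral_Q (hM : S_MEAS) (M : ℕ) (f : (ℕ → ℝ) → ℝ) (hf : Measurable f)
    (hi : ∀ a, Integrable (fun θ => f (fun i => gap θ (a + i))) (cue M)) :
    ∫ x, f x ∂(Q M) = (M : ℝ)⁻¹ * ∑ a ∈ Finset.range M, ∫ θ, f (fun i => gap θ (a + i)) ∂(cue M) := by
  unfold Q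
  rw [integral_smul_measure, integral_finsetSum_measure]
  · rw [smul_eq_mul]
    congr 1
    · simp
    · refine Finset.sum_congr rfl fun a _ => ?_
      rw [integral_map (meas_map hM M a).aemeasurable hf.aestronglyMeasurable]
  · intro a _
    rw [integrable_map_measure hf.aestronglyMeasurable (meas_map hM M a).aemeasurable]
    exact hi a

lemma integrable_Q (hM : S_MEAS) (M : ℕ) (h : 0 < M) (f : (ℕ → ℝ) → ℝ) (hf : Measurable f)
    (hi : ∀ a, Integrable (fun θ => f (fun i => gap θ (a + i))) (cue M)) :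
    Integrable f (Q M) := by
  unfold Q
  apply Integrable.smul_measure
  · rw [integrable_finsetSum_measure]
    intro a _
    rw [integrable_map_measure hf.aestronglyMeasurable (meas_map hM M a).aemeasurable]
    exact hi a
  · exact ENNReal.inv_ne_top.2 (by exact_mod_cast h.ne')

end Pool.Agent.N424.JG
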