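import Pool.Agent.N424.JG.Basic

/-! # Project JG: the law of a gap is equicontinuous -/

set_option autoImplicit false

open MeasureTheory Filter Topology

namespace Pool.Agent.N424.JG

open Pool.Agent.N805.JG

/-- a cyclic interval -/
lemma vol_arc (b L : ℝ) (hL : 0 ≤ L) :
    MeasurableSet {x : ℝ | x ∈ Set.Ico (0 : ℝ) 1 ∧ Int.fract (x - b) ≤ L} ∧
    volume.real {x : ℝ | x ∈ Set.Ico (0 : ℝ) 1 ∧ Int.fract (x - b) ≤ L} ≤ L := by
  constructor
  · apply MeasurableSet.inter measurableSet_Ico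
    exact measurableSet_le (measurable_fract.comp (measurable_id.sub_const b)) measurable_const
  · set b' := Int.fract b with hb'
    have hb0 : 0 ≤ b' := Int.fract_nonneg b
    have hb1 : b' < 1 := Int.fract_lt_one b
    have hfr : ∀ x : ℝ, Int.fract (x - b) = Int.fract (x - b') := by
      intro x
      have : x - b' = x - b + (⌊b⌋ : ℤ) := by
        rw [hb', Int.fract]; ring
      rw [this, Int.fract_add_intCast]
    have hsub : {x : ℝ | x ∈ Set.Ico (0 : ℝ) 1 ∧ Int.fract (x - b) ≤ L} ⊆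
        Set.Icc b' (min (b' + L) 1) ∪ Set.Icc 0 (b' + L - 1) := by
      rintro x ⟨⟨hx0, hx1⟩, hx⟩
      rw [hfr] at hx
      rcases le_or_gt b' x with h | h
      · left
        have : Int.fract (x - b') = x - b' := by
          rw [Int.fract_eq_self]; constructor <;> linarith
        rw [this] at hx
        exact ⟨h, le_min (by linarith) hx1.le⟩
      · right
        have : Int.fract (x - b') = x - b' + 1 := by
          have h2 : Int.fract (x - b' + 1) = x - b' + 1 := by
            rw [Int.fract_eq_self]; constructor <;> linarith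
          rw [← h2]
          have := Int.fract_add_one (x - b')
          exact this.symm
        rw [this] at hx
        exact ⟨hx0, by linarith⟩
    have h1 : volume.real (Set.Icc b' (min (b' + L) 1) ∪ Set.Icc 0 (b' + L - 1)) ≤ L := by
      refine (measureReal_union_le _ _).trans ?_
      rw [Real.volume_real_Icc, Real.volume_real_Icc]
      rcases le_total (b' + L) 1 with h | h
      · rw [min_eq_left h, max_eq_left (by linarith), max_eq_right (by linarith)]
        linarith
      · rw [min_eq_right h, max_eq_left (by linarith), max_eq_left (by linarith)]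
        linarith
    refine (measureReal_mono hsub ?_).trans h1
    refine (measure_union_lt_top ?_ ?_).ne <;> simp

/-- the deterministic counting inequality -/
lemma count {M : ℕ} (hM : 2 ≤ M) (θ : Fin M → ℝ) (hθ : ∀ i, θ i ∈ Set.Ico (0 : ℝ) 1) (s h : ℝ)
    (K : ℕ) (hK : 0 < K) :
    (((Finset.range M).filter fun a => s < gap θ a ∧ gap θ a ≤ s + h).card : ℝ) ≤
      ∑ c ∈ Finset.range K, (num θ (Set.Ico ((c : ℝ) / K) ((c + 1 : ℝ) / K) ∪
        {x : ℝ | x ∈ Set.Ico (0 : ℝ) 1 ∧ Int.fract (x - ((c : ℝ) / K + s / M)) ≤ 1 / K + h / M}) : ℝ) *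
        ((num θ (Set.Ico ((c : ℝ) / K) ((c + 1 : ℝ) / K) ∪
        {x : ℝ | x ∈ Set.Ico (0 : ℝ) 1 ∧ Int.fract (x - ((c : ℝ) / K + s / M)) ≤ 1 / K + h / M}) : ℝ) - 1) := by
  classical
  have hM0 : 0 < M := by omega
  have hMr : (0 : ℝ) < M := by exact_mod_cast hM0
  have hKr : (0 : ℝ) < K := by exact_mod_cast hK
  set U : ℕ → Set ℝ := fun c => Set.Ico ((c : ℝ) / K) ((c + 1 : ℝ) / K) ∪
        {x : ℝ | x ∈ Set.Ico (0 : ℝ) 1 ∧ Int.fract (x - ((c : ℝ) / K + s / M)) ≤ 1 / K + h / M} with hU
  set T : ℕ → Finset ℕ := fun c => (Finset.range M).filter fun a =>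
    (s < gap θ a ∧ gap θ a ≤ s + h) ∧ (c : ℝ) / K ≤ pt θ a / M ∧ pt θ a / M < (c + 1 : ℝ) / K with hT
  -- points
  have hpt : ∀ a (ha : a < M), pt θ a / M = θ (Tuple.sort θ ⟨a, ha⟩) := by
    intro a ha
    rw [pt_pos hM0]
    have e1 : (⟨a % M, Nat.mod_lt a hM0⟩ : Fin M) = ⟨a, ha⟩ := Fin.ext (Nat.mod_eq_of_lt ha)
    rw [e1, Nat.div_eq_of_lt ha]
    field_simp
    simp
  have h1 : (((Finset.range M).filter fun a => s < gap θ a ∧ gap θ a ≤ s + h).card : ℝ) ≤
      ∑ c ∈ Finset.range K, ((T c).card : ℝ) := by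
    have hsub : ((Finset.range M).filter fun a => s < gap θ a ∧ gap θ a ≤ s + h) ⊆
        (Finset.range K).biUnion T := by
      intro a ha
      rw [Finset.mem_filter, Finset.mem_range] at ha
      rw [Finset.mem_biUnion]
      have hx := hθ (Tuple.sort θ ⟨a, ha.1⟩)
      rw [← hpt a ha.1] at hx
      refine ⟨⌊pt θ a / M * K⌋₊, ?_, ?_⟩
      · rw [Finset.mem_range, Nat.floor_lt (mul_nonneg hx.1 hKr.le)]
        calc pt θ a / M * K < 1 * K := mul_lt_mul_of_pos_right hx.2 hKr
          _ = K := one_mul _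
      · rw [hT]
        simp only [Finset.mem_filter, Finset.mem_range]
        refine ⟨ha.1, ha.2, ?_, ?_⟩
        · rw [div_le_iff₀ hKr]
          exact Nat.floor_le (mul_nonneg hx.1 hKr.le)
        · rw [lt_div_iff₀ hKr]
          exact Nat.lt_floor_add_one _
    calc (((Finset.range M).filter fun a => s < gap θ a ∧ gap θ a ≤ s + h).card : ℝ)
        ≤ (((Finset.range K).biUnion T).card : ℝ) := by exact_mod_cast Finset.card_le_card hsub
      _ ≤ ∑ c ∈ Finset.range K, ((T c).card : ℝ) := by exact_mod_cast Finset.card_biUnion_le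
  refine h1.trans (Finset.sum_le_sum fun c _ => ?_)
  -- one cell
  show ((T c).card : ℝ) ≤ (num θ (U c) : ℝ) * ((num θ (U c) : ℝ) - 1)
  set S : Finset (Fin M) := Finset.univ.filter fun i => θ i ∈ U c with hS
  have hnum : num θ (U c) = S.card := by
    unfold num
    rw [hS]
    congr 1
    ext i
    simp
  have hoff : ((S.offDiag.card : ℕ) : ℝ) = (num θ (U c) : ℝ) * ((num θ (U c) : ℝ) - 1) := by
    rw [Finset.offDiag_card, hnum, Nat.cast_sub (Nat.le_mul_self _)]
    push_cast
    ring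
  rw [← hoff]
  norm_cast
  apply Finset.card_le_card_of_injOn (fun a => (Tuple.sort θ ⟨a % M, Nat.mod_lt a hM0⟩,
    Tuple.sort θ ⟨(a + 1) % M, Nat.mod_lt (a + 1) hM0⟩))
  · intro a ha
    rw [hT] at ha
    simp only [Finset.coe_filter, Finset.mem_range, Set.mem_ofPred_eq] at ha
    obtain ⟨haM, ⟨hg1, hg2⟩, hc1, hc2⟩ := ha
    rw [Finset.mem_coe, Finset.mem_offDiag]
    have e1 : (⟨a % M, Nat.mod_lt a hM0⟩ : Fin M) = ⟨a, haM⟩ := Fin.ext (Nat.mod_eq_of_lt haM)
    refine ⟨?_, ?_, ?_⟩
    · rw [hS, Finset.mem_filter]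
      refine ⟨Finset.mem_univ _, ?_⟩
      rw [hU]
      left
      show θ (Tuple.sort θ ⟨a % M, Nat.mod_lt a hM0⟩) ∈ _
      rw [e1, ← hpt a haM]
      exact ⟨hc1, hc2⟩
    · rw [hS, Finset.mem_filter]
      refine ⟨Finset.mem_univ _, ?_⟩
      rw [hU]
      right
      refine ⟨hθ _, ?_⟩
      have hp1 : pt θ (a + 1) / M = θ (Tuple.sort θ ⟨(a + 1) % M, Nat.mod_lt (a + 1) hM0⟩) +
          (((a + 1) / M : ℕ) : ℝ) := by
        rw [pt_pos hM0]
        field_simp
      set y := θ (Tuple.sort θ ⟨(a + 1) % M, Nat.mod_lt (a + 1) hM0⟩) with hy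
      have hgd : gap θ a = pt θ (a + 1) - pt θ a := rfl
      have hpp : pt θ (a + 1) / M = pt θ a / M + gap θ a / M := by
        rw [hgd]; ring
      have hyv : y - ((c : ℝ) / K + s / M) + (((a + 1) / M : ℕ) : ℝ) =
          pt θ a / M + gap θ a / M - ((c : ℝ) / K + s / M) := by
        rw [← hpp, hp1]; ring
      have hfr : Int.fract (y - ((c : ℝ) / K + s / M)) =
          Int.fract (pt θ a / M + gap θ a / M - ((c : ℝ) / K + s / M)) := by
        rw [← hyv]
        exact (Int.fract_add_natCast _ _).symm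
      have hs1 : s / M < gap θ a / M := div_lt_div_of_pos_right hg1 hMr
      have hs2 : gap θ a / M ≤ s / M + h / M := by
        rw [← add_div]; exact div_le_div_of_nonneg_right hg2 hMr.le
      show Int.fract (y - ((c : ℝ) / K + s / M)) ≤ 1 / K + h / M
      rw [hfr]
      have hc3 : pt θ a / M < c / K + 1 / K := by rw [← add_div]; exact hc2
      have hz : (0 : ℝ) ≤ pt θ a / M + gap θ a / M - ((c : ℝ) / K + s / M) := by linarith
      have hfl : (0 : ℝ) ≤ (⌊pt θ a / M + gap θ a / M - ((c : ℝ) / K + s / M)⌋ : ℝ) := by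
        exact_mod_cast Int.floor_nonneg.2 hz
      have hself := Int.self_sub_floor (pt θ a / M + gap θ a / M - ((c : ℝ) / K + s / M))
      rw [← hself]
      linarith
    · intro he
      have := (Tuple.sort θ).injective he
      have h2 := congrArg Fin.val this
      simp only at h2
      rw [Nat.mod_eq_of_lt haM] at h2
      rcases Nat.lt_or_ge (a + 1) M with h3 | h3
      · rw [Nat.mod_eq_of_lt h3] at h2; omega
      · have : a + 1 = M := by omega
        rw [this, Nat.mod_self] at h2; omega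
  · intro a ha b hb hab
    rw [hT] at ha hb
    simp only [Finset.coe_filter, Finset.mem_range, Set.mem_ofPred_eq] at ha hb
    have h1 := (Prod.mk.inj hab).1
    have h2 := congrArg Fin.val ((Tuple.sort θ).injective h1)
    simp only at h2
    rwa [Nat.mod_eq_of_lt ha.1, Nat.mod_eq_of_lt hb.1] at h2

theorem EQC_core (hMe : S_MEAS) (hP : ∀ M, IsProbabilityMeasure (cue M))
    (hPair : ∀ M : ℕ, 1 ≤ M → ∀ U : Set ℝ, MeasurableSet U → U ⊆ Set.Ico 0 1 →
      Integrable (fun θ : Fin M → ℝ => (num θ U : ℝ) * (num θ U - 1)) (cue M) ∧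
      ∫ θ, (num θ U : ℝ) * (num θ U - 1) ∂(cue M) ≤ (M * volume.real U) ^ 2) :
    ∀ (M : ℕ), 2 ≤ M → ∀ (i : ℕ) (s h : ℝ), 0 < h → h ≤ 1 →
      (Q M).real {x | s < x i ∧ x i ≤ s + h} ≤ 20 * h := by
  classical
  intro M hM i s h h0 h1
  haveI := hP M
  have hM0 : 0 < M := by omega
  have hMr : (0 : ℝ) < M := by exact_mod_cast hM0
  have hM2 : (2 : ℝ) ≤ M := by exact_mod_cast hM
  have hA : MeasurableSet {x : ℕ → ℝ | s < x i ∧ x i ≤ s + h} :=
    (measurableSet_lt measurable_const (measurable_pi_apply i)).inter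
      (measurableSet_le (measurable_pi_apply i) measurable_const)
  rw [real_Q hMe hP M _ hA]
  set E : ℕ → Set (Fin M → ℝ) := fun n => {θ | s < gap θ n ∧ gap θ n ≤ s + h} with hE
  have hEm : ∀ n, MeasurableSet (E n) := fun n =>
    (measurableSet_lt measurable_const (meas_gap hMe M n)).inter
      (measurableSet_le (meas_gap hMe M n) measurable_const)
  have e1 : ∑ a ∈ Finset.range M, (cue M).real {θ | (fun i => gap θ (a + i)) ∈ {x : ℕ → ℝ | s < x i ∧ x i ≤ s + h}} =
      ∑ a ∈ Finset.range M, (cue M).real (E a) := by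
    have := sum_shift M (fun n => (cue M).real (E n)) (fun n => by
      simp only [hE]
      congr 1
      ext θ
      simp only [Set.mem_ofPred_eq, gap_add]) i
    exact this
  rw [e1]
  -- the cells
  set K : ℕ := ⌈(M : ℝ) / h⌉₊ with hKdef
  have hMh : 0 < (M : ℝ) / h := by positivity
  have hK0 : 0 < K := Nat.ceil_pos.2 hMh
  have hKr : (0 : ℝ) < K := by exact_mod_cast hK0
  have hK1 : (M : ℝ) / h ≤ K := Nat.le_ceil _
  have hK2 : (K : ℝ) < M / h + 1 := Nat.ceil_lt_add_one hMh.le
  have hKh : 1 / (K : ℝ) ≤ h / M := by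
    rw [div_le_div_iff₀ hKr hMr]
    rw [div_le_iff₀ h0] at hK1
    linarith
  set U : ℕ → Set ℝ := fun c => Set.Ico ((c : ℝ) / K) ((c + 1 : ℝ) / K) ∪
        {x : ℝ | x ∈ Set.Ico (0 : ℝ) 1 ∧ Int.fract (x - ((c : ℝ) / K + s / M)) ≤ 1 / K + h / M} with hU
  have hUm : ∀ c, MeasurableSet (U c) := fun c =>
    measurableSet_Ico.union (vol_arc _ _ (by positivity)).1
  have hUs : ∀ c ∈ Finset.range K, U c ⊆ Set.Ico 0 1 := by
    intro c hc x hx
    rw [Finset.mem_range] at hc
    rcases hx with hx | hx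
    · refine ⟨le_trans (by positivity) hx.1, lt_of_lt_of_le hx.2 ?_⟩
      rw [div_le_one hKr]
      exact_mod_cast hc
    · exact hx.1
  have hUv : ∀ c, volume.real (U c) ≤ 3 * h / M := by
    intro c
    refine (measureReal_union_le _ _).trans ?_
    have h2 := (vol_arc ((c : ℝ) / K + s / M) (1 / K + h / M) (by positivity)).2
    rw [Real.volume_real_Ico]
    have h3 : max (((c : ℝ) + 1) / K - c / K) 0 = 1 / K := by
      rw [← sub_div, add_sub_cancel_left, max_eq_left (by positivity)]
    rw [h3]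
    have : 3 * h / M = h / M + h / M + h / M := by ring
    rw [this]
    linarith
  -- pointwise
  have hpw : ∀ᵐ θ ∂(cue M), ∑ a ∈ Finset.range M, (E a).indicator (fun _ => (1 : ℝ)) θ ≤
      ∑ c ∈ Finset.range K, (num θ (U c) : ℝ) * ((num θ (U c) : ℝ) - 1) := by
    filter_upwards [ae_mem M] with θ hθ
    have := count hM θ hθ s h K hK0
    refine le_trans (le_of_eq ?_) this
    rw [Finset.card_filter]
    push_cast
    refine Finset.sum_congr rfl fun a _ => ?_
    simp only [Set.indicator_apply, hE, Set.mem_ofPred_eq]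
  have hint : ∀ c ∈ Finset.range K, Integrable (fun θ : Fin M → ℝ => (num θ (U c) : ℝ) * (num θ (U c) - 1)) (cue M) :=
    fun c hc => (hPair M (by omega) (U c) (hUm c) (hUs c hc)).1
  have e2 : ∑ a ∈ Finset.range M, (cue M).real (E a) =
      ∫ θ, ∑ a ∈ Finset.range M, (E a).indicator (fun _ => (1 : ℝ)) θ ∂(cue M) := by
    rw [integral_finsetSum]
    · refine Finset.sum_congr rfl fun a _ => ?_
      rw [integral_indicator_const _ (hEm a)]
      simp
    · intro a _
      exact (integrable_const 1).indicator (hEm a)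
  have e3 : ∑ a ∈ Finset.range M, (cue M).real (E a) ≤ K * (9 * h ^ 2) := by
    rw [e2]
    calc _ ≤ ∫ θ, ∑ c ∈ Finset.range K, (num θ (U c) : ℝ) * ((num θ (U c) : ℝ) - 1) ∂(cue M) := by
          apply integral_mono_ae
          · exact integrable_finsetSum _ fun a _ => (integrable_const 1).indicator (hEm a)
          · exact integrable_finsetSum _ hint
          · exact hpw
      _ = ∑ c ∈ Finset.range K, ∫ θ, (num θ (U c) : ℝ) * ((num θ (U c) : ℝ) - 1) ∂(cue M) :=
          integral_finsetSum _ hint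
      _ ≤ ∑ c ∈ Finset.range K, 9 * h ^ 2 := by
          refine Finset.sum_le_sum fun c hc => ?_
          refine (hPair M (by omega) (U c) (hUm c) (hUs c hc)).2.trans ?_
          have hv := hUv c
          have hv0 : 0 ≤ volume.real (U c) := measureReal_nonneg
          have h4 : (M : ℝ) * volume.real (U c) ≤ 3 * h := by
            calc (M : ℝ) * volume.real (U c) ≤ M * (3 * h / M) := mul_le_mul_of_nonneg_left hv hMr.le
              _ = 3 * h := by field_simp
          calc (M * volume.real (U c)) ^ 2 ≤ (3 * h) ^ 2 := pow_le_pow_left₀ (by positivity) h4 2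
            _ = 9 * h ^ 2 := by ring
      _ = K * (9 * h ^ 2) := by simp
  have hK3 : (K : ℝ) * h ≤ 2 * M := by
    have : (K : ℝ) * h ≤ (M / h + 1) * h := mul_le_mul_of_nonneg_right hK2.le h0.le
    have h5 : ((M : ℝ) / h + 1) * h = M + h := by field_simp
    linarith
  calc (M : ℝ)⁻¹ * ∑ a ∈ Finset.range M, (cue M).real (E a) ≤ (M : ℝ)⁻¹ * (K * (9 * h ^ 2)) :=
        mul_le_mul_of_nonneg_left e3 (by positivity)
    _ = (M : ℝ)⁻¹ * ((K * h) * (9 * h)) := by ring
    _ ≤ (M : ℝ)⁻¹ * ((2 * M) * (9 * h)) := by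
        apply mul_le_mul_of_nonneg_left _ (by positivity)
        exact mul_le_mul_of_nonneg_right hK3 (by positivity)
    _ = 18 * h := by field_simp; ring
    _ ≤ 20 * h := by linarith

theorem EQC (hE : S_EIG) : S_EQC := fun hMe hP hPair =>
  EQC_core hMe (hP hE) (hPair hE hP)

end Pool.Agent.N424.JG
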