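import Pool.Agent.N424.JG.Basic

/-! # Project JG: the gap laws of random unitary matrices form a good family -/

set_option autoImplicit false

open MeasureTheory Filter Topology

namespace Pool.Agent.N424.JG

open Pool.Agent.N805.JG

lemma integrable_comp (hMe : S_MEAS) (M : ℕ) (hPM : IsProbabilityMeasure (cue M))
    (f : (ℕ → ℝ) → ℝ) (hf : Measurable f) (B : ℝ)
    (hB : ∀ x : ℕ → ℝ, (∀ i, 0 ≤ x i ∧ x i ≤ 2 * M) → |f x| ≤ B) (a : ℕ) :
    Integrable (fun θ => f (fun i => gap θ (a + i))) (cue M) := by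
  refine Integrable.of_bound (hf.comp (meas_map hMe M a)).aestronglyMeasurable B ?_
  filter_upwards [ae_mem M] with θ hθ
  rw [Real.norm_eq_abs]
  exact hB _ fun i => ⟨gap_nonneg θ hθ _, gap_le θ hθ _⟩

theorem GOOD_core (hMe : S_MEAS) (hP : ∀ M, IsProbabilityMeasure (cue M))
    (hB : ∀ k : ℕ, ∃ C : ℝ, ∀ (M m : ℕ), 1 ≤ m → m < M →
      Integrable (fun x : ℕ → ℝ => |∑ i ∈ Finset.range m, (x i - 1)| ^ k) (Q M) ∧
      ∫ x, |∑ i ∈ Finset.range m, (x i - 1)| ^ k ∂(Q M) ≤ C * (1 + Real.log m) ^ k) :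
    Good atTop fun M : ℕ => Q (M + 2) := by
  classical
  have hint : ∀ (M : ℕ), 0 < M → ∀ i k, Integrable (fun x : ℕ → ℝ => x i ^ k) (Q M) := by
    intro M hM i k
    have hm : Measurable (fun x : ℕ → ℝ => x i ^ k) := (measurable_pi_apply i).pow_const k
    apply integrable_Q hMe M hM _ hm
    intro a
    apply integrable_comp hMe M (hP M) _ hm ((2 * M : ℝ) ^ k)
    intro x hx
    rw [abs_of_nonneg (pow_nonneg (hx i).1 k)]
    exact pow_le_pow_left₀ (hx i).1 (hx i).2 k
  have hnn : ∀ M i, ∀ᵐ x ∂(Q M), 0 ≤ x i := by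
    intro M i
    apply ae_Q hMe M _ (measurableSet_le measurable_const (measurable_pi_apply i))
    intro θ hθ a
    exact gap_nonneg θ hθ _
  constructor
  · intro j
    exact prob_Q hMe hP (j + 2) (by omega)
  · intro j i
    exact hnn (j + 2) i
  · intro j i k
    exact hint (j + 2) (by omega) i k
  · -- moments
    intro i k
    obtain ⟨C, hC⟩ := hB k
    refine ⟨2 ^ k * (1 + C), Eventually.of_forall fun j => ?_⟩
    have hM : 0 < j + 2 := by omega
    haveI := prob_Q hMe hP (j + 2) hM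
    have hshift : ∫ x, x i ^ k ∂(Q (j + 2)) = ∫ x, x 0 ^ k ∂(Q (j + 2)) := by
      have hm : ∀ i, Measurable (fun x : ℕ → ℝ => x i ^ k) := fun i => (measurable_pi_apply i).pow_const k
      have hi : ∀ i a, Integrable (fun θ : Fin (j + 2) → ℝ => gap θ (a + i) ^ k) (cue (j + 2)) := by
        intro i a
        have := integrable_comp hMe (j + 2) (hP (j + 2)) (fun x => x i ^ k) (hm i) ((2 * (j + 2 : ℕ) : ℝ) ^ k)
          (fun x hx => by
            rw [abs_of_nonneg (pow_nonneg (hx i).1 k)]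
            exact pow_le_pow_left₀ (hx i).1 (hx i).2 k) a
        exact this
      rw [integral_Q hMe (j + 2) _ (hm i) (hi i), integral_Q hMe (j + 2) _ (hm 0) (hi 0)]
      congr 1
      have := sum_shift (j + 2) (fun n => ∫ θ : Fin (j + 2) → ℝ, gap θ n ^ k ∂(cue (j + 2))) (fun n => by
        simp only [gap_add]) i
      simpa using this
    rw [hshift]
    obtain ⟨h1, h2⟩ := hC (j + 2) 1 le_rfl (by omega)
    simp only [Finset.range_one, Finset.sum_singleton, Nat.cast_one, Real.log_one, add_zero, one_pow,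
      mul_one] at h1 h2
    have hb : ∀ᵐ x ∂(Q (j + 2)), x 0 ^ k ≤ 2 ^ k * (1 + |x 0 - 1| ^ k) := by
      filter_upwards [hnn (j + 2) 0] with x hx
      have hx1 : x 0 ≤ 2 * max 1 |x 0 - 1| := by
        rcases le_total (x 0) 2 with h | h
        · have := le_max_left 1 |x 0 - 1|
          linarith
        · have h3 := le_max_right 1 |x 0 - 1|
          have h4 : x 0 - 1 ≤ |x 0 - 1| := le_abs_self _
          linarith
      calc x 0 ^ k ≤ (2 * max 1 |x 0 - 1|) ^ k := pow_le_pow_left₀ hx hx1 k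
        _ = 2 ^ k * (max 1 |x 0 - 1|) ^ k := mul_pow _ _ _
        _ ≤ 2 ^ k * (1 + |x 0 - 1| ^ k) := by
            apply mul_le_mul_of_nonneg_left _ (by positivity)
            rcases max_cases 1 |x 0 - 1| with h | h
            · rw [h.1, one_pow]
              have : 0 ≤ |x 0 - 1| ^ k := by positivity
              linarith
            · rw [h.1]
              linarith
    calc ∫ x, x 0 ^ k ∂(Q (j + 2)) ≤ ∫ x, 2 ^ k * (1 + |x 0 - 1| ^ k) ∂(Q (j + 2)) := by
          apply integral_mono_ae (hint (j + 2) hM 0 k) _ hb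
          exact ((integrable_const 1).add h1).const_mul _
      _ = 2 ^ k * (1 + ∫ x, |x 0 - 1| ^ k ∂(Q (j + 2))) := by
          rw [integral_const_mul, integral_add (integrable_const 1) h1]
          simp
      _ ≤ 2 ^ k * (1 + C) := by
          apply mul_le_mul_of_nonneg_left _ (by positivity)
          linarith
  · -- stationarity
    intro I
    have hz : ∀ j : ℕ, ∫ x, ∏ i ∈ I, x (i + 1) ∂(Q (j + 2)) - ∫ x, ∏ i ∈ I, x i ∂(Q (j + 2)) = 0 := by
      intro j
      have hm1 : Measurable (fun x : ℕ → ℝ => ∏ i ∈ I, x (i + 1)) :=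
        Finset.measurable_prod I fun i _ => measurable_pi_apply (i + 1)
      have hm0 : Measurable (fun x : ℕ → ℝ => ∏ i ∈ I, x i) :=
        Finset.measurable_prod I fun i _ => measurable_pi_apply i
      have hbd : ∀ s : ℕ, ∀ x : ℕ → ℝ, (∀ i, 0 ≤ x i ∧ x i ≤ 2 * (j + 2 : ℕ)) →
          |∏ i ∈ I, x (i + s)| ≤ (2 * (j + 2 : ℕ) : ℝ) ^ I.card := by
        intro s x hx
        rw [abs_of_nonneg (Finset.prod_nonneg fun i _ => (hx _).1)]
        calc ∏ i ∈ I, x (i + s) ≤ ∏ _i ∈ I, (2 * (j + 2 : ℕ) : ℝ) :=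
              Finset.prod_le_prod (fun i _ => (hx _).1) fun i _ => (hx _).2
          _ = _ := by rw [Finset.prod_const]
      have hi1 : ∀ a, Integrable (fun θ : Fin (j + 2) → ℝ => ∏ i ∈ I, gap θ (a + (i + 1))) (cue (j + 2)) :=
        fun a => integrable_comp hMe (j + 2) (hP (j + 2)) _ hm1 _ (hbd 1) a
      have hi0 : ∀ a, Integrable (fun θ : Fin (j + 2) → ℝ => ∏ i ∈ I, gap θ (a + i)) (cue (j + 2)) :=
        fun a => integrable_comp hMe (j + 2) (hP (j + 2)) _ hm0 _ (hbd 0) a
      rw [integral_Q hMe (j + 2) _ hm1 hi1, integral_Q hMe (j + 2) _ hm0 hi0]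
      have := sum_shift_one (j + 2) (fun n => ∫ θ : Fin (j + 2) → ℝ, ∏ i ∈ I, gap θ (n + i) ∂(cue (j + 2)))
        (fun n => by
          congr 1
          ext θ
          refine Finset.prod_congr rfl fun i _ => ?_
          rw [show n + (j + 2) + i = (n + i) + (j + 2) by ring, gap_add])
      rw [sub_eq_zero]
      congr 1
      rw [← this]
      refine Finset.sum_congr rfl fun a _ => ?_
      congr 1
      ext θ
      refine Finset.prod_congr rfl fun i _ => ?_
      show gap θ (a + (i + 1)) = gap θ (a + 1 + i)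
      rw [show a + (i + 1) = a + 1 + i by ring]
    exact tendsto_const_nhds.congr fun j => (hz j).symm
  · -- blocks
    intro k ε hε
    obtain ⟨C, hC⟩ := hB k
    have hlo : ∀ᶠ m : ℕ in atTop, (|C| + 1) * 2 ^ k * (Real.log m) ^ k ≤ ε * m := by
      have h1 : (fun x : ℝ => Real.log x ^ k) =o[atTop] id := Real.isLittleO_pow_log_id_atTop
      have h2 := h1.comp_tendsto tendsto_natCast_atTop_atTop (k := fun n : ℕ => (n : ℝ))
      have hc : 0 < ε / ((|C| + 1) * 2 ^ k) := by positivity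
      filter_upwards [h2.bound hc, eventually_ge_atTop 1] with m hm hm1
      have hm1' : (1 : ℝ) ≤ m := by exact_mod_cast hm1
      have hl : 0 ≤ Real.log m := Real.log_nonneg hm1'
      simp only [Function.comp, id, Real.norm_eq_abs] at hm
      rw [abs_of_nonneg (pow_nonneg hl k), abs_of_nonneg (by linarith : (0 : ℝ) ≤ m)] at hm
      rw [div_mul_eq_mul_div, le_div_iff₀ (by positivity)] at hm
      calc (|C| + 1) * 2 ^ k * (Real.log m) ^ k = Real.log m ^ k * ((|C| + 1) * 2 ^ k) := by ring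
        _ ≤ ε * m := hm
    obtain ⟨m₁, hm₁⟩ := eventually_atTop.1 hlo
    refine ⟨max m₁ 3, fun m hm => ?_⟩
    have hm3 : 3 ≤ m := (le_max_right _ _).trans hm
    filter_upwards [eventually_ge_atTop m] with j hj
    obtain ⟨h1, h2⟩ := hC (j + 2) m (by omega) (by omega)
    have hm3' : (3 : ℝ) ≤ m := by exact_mod_cast hm3
    have hl1 : 1 ≤ Real.log m := by
      rw [Real.le_log_iff_exp_le (by linarith)]
      have := Real.exp_one_lt_d9
      linarith
    calc |∫ x, (∑ i ∈ Finset.range m, (x i - 1)) ^ k ∂(Q (j + 2))|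
        ≤ ∫ x, |(∑ i ∈ Finset.range m, (x i - 1)) ^ k| ∂(Q (j + 2)) := abs_integral_le_integral_abs
      _ = ∫ x, |∑ i ∈ Finset.range m, (x i - 1)| ^ k ∂(Q (j + 2)) := by
          congr 1; ext x; rw [abs_pow]
      _ ≤ C * (1 + Real.log m) ^ k := h2
      _ ≤ (|C| + 1) * (2 * Real.log m) ^ k := by
          apply mul_le_mul
          · linarith [le_abs_self C]
          · exact pow_le_pow_left₀ (by linarith) (by linarith) k
          · positivity
          · positivity
      _ = (|C| + 1) * 2 ^ k * (Real.log m) ^ k := by rw [mul_pow]; ring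
      _ ≤ ε * m := hm₁ m ((le_max_left _ _).trans hm)

theorem GOOD (hE : S_EIG) (hTail : S_TAIL) : S_GOOD :=
  fun hMe hP hB => GOOD_core hMe (hP hE) (hB hMe hP hTail)

end Pool.Agent.N424.JG
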